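import Pool.Agent.H47.KS.Targets

/-!
# Row CSX of ksu_modules: small gap, an arithmetic progression or an exact configuration (helper2)
-/

set_option autoImplicit false

namespace Pool.Agent.H2.KSU

open Finset Pool.Agent.H37.SP Pool.Agent.H47.KS

theorem pf_CSX (hAPR : T_APR) (hAE : T_AE) (hHOM : T_HOM) : T_CSX := by
  intro P N G C K I X wK wI hOk hB hXC hX4 hXn
  have hn : P.n = 8 * P.nu := rfl
  have hE : P.E = (2 * P.n + 1) * P.x0 := rfl
  have hu : P.u = (3 * P.n + 2) * P.E := rfl
  have hN1 := hOk.N1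
  have hnu := hOk.nu1
  have hxnu := hOk.xnu
  have hx2 := hOk.x2
  have hKc := hB.cK
  have hIc := hB.cI
  -- numerical facts
  have hvE : (X.card + 1) * P.x0 ≤ P.E := by
    rw [hE]
    exact Nat.mul_le_mul_right _ (by omega)
  have hEx : P.x0 ≤ P.E := by
    rw [hE]
    exact Nat.le_mul_of_pos_left _ (by omega)
  have hxE : P.x0 * (2 * P.E) ≤ 2 * P.n * P.E := by
    calc P.x0 * (2 * P.E) ≤ P.n * (2 * P.E) := Nat.mul_le_mul_right _ (by omega)
      _ = 2 * P.n * P.E := by ring
  have hnE : 4 * P.n * P.E = 2 * (2 * P.n * P.E) := by ring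
  have huE : P.E ≤ P.u := by
    rw [hu]
    exact Nat.le_mul_of_pos_left _ (by omega)
  by_cases hfirst : ∃ b g : ℤ, g ≠ 0 ∧ ∀ z ∈ prog b g 0 P.x0, ∃ K' ⊆ K, ∃ I' ⊆ I,
      K'.card + I'.card = X.card ∧ ee G ((C \ X) ∪ (K' ∪ I')) = z
  · exact Or.inl hfirst
  right
  -- (a) the clique
  have hpK : ∀ z z' : ℤ, z ≠ z' → ¬ (P.x0 ≤ (K.filter (fun a => dg G X a = z)).card ∧
      P.x0 ≤ (K.filter (fun a => dg G X a = z')).card) := by
    rintro z z' hz ⟨h1, h2⟩
    have hf : ∀ w : ℤ, K.filter (fun a => dg G (C \ X) a = wK - w) =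
        K.filter (fun a => dg G X a = w) := by
      intro w
      refine filter_congr ?_
      intro a ha
      rw [dg_sdiff G hXC, hB.wtK a ha]
      constructor
      · intro h
        omega
      · intro h
        omega
    obtain ⟨b, g, hg, hprog⟩ := hAPR N G (C \ X) K X.card P.x0 1 (wK - z) (wK - z')
      (hB.dKC.symm.mono_left sdiff_subset) hB.clq (by omega) (by omega) (by omega)
      (by rw [hf]; exact h1) (by rw [hf]; exact h2)
    refine hfirst ⟨b, g, hg, ?_⟩
    intro y hy
    obtain ⟨Q, hQK, hQc, hQe⟩ := hprog y hy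
    refine ⟨Q, hQK, ∅, empty_subset _, ?_, ?_⟩
    · rw [card_empty, hQc, add_zero]
    · rw [union_empty]
      exact hQe
  -- (a) the independent set
  have hpI : ∀ z z' : ℤ, z ≠ z' → ¬ (P.x0 ≤ (I.filter (fun a => dg G X a = z)).card ∧
      P.x0 ≤ (I.filter (fun a => dg G X a = z')).card) := by
    rintro z z' hz ⟨h1, h2⟩
    have hf : ∀ w : ℤ, I.filter (fun a => dg G (C \ X) a = wI - w) =
        I.filter (fun a => dg G X a = w) := by
      intro w
      refine filter_congr ?_
      intro a ha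
      rw [dg_sdiff G hXC, hB.wtI a ha]
      constructor
      · intro h
        omega
      · intro h
        omega
    obtain ⟨b, g, hg, hprog⟩ := hAPR N G (C \ X) I X.card P.x0 0 (wI - z) (wI - z')
      (hB.dIC.symm.mono_left sdiff_subset) hB.ind (by omega) (by omega) (by omega)
      (by rw [hf]; exact h1) (by rw [hf]; exact h2)
    refine hfirst ⟨b, g, hg, ?_⟩
    intro y hy
    obtain ⟨Q, hQK, hQc, hQe⟩ := hprog y hy
    refine ⟨∅, empty_subset _, Q, hQK, ?_, ?_⟩
    · rw [card_empty, hQc, zero_add]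
    · rw [empty_union]
      exact hQe
  have hrange : ∀ a : Fin N, (0 : ℤ) ≤ dg G X a ∧ dg G X a < 0 + ((X.card + 1 : ℕ) : ℤ) := by
    intro a
    have h1 := dg_nonneg G X a
    have h2 := dg_le G X a
    push_cast
    constructor <;> omega
  obtain ⟨s, hs⟩ := hAE N K (fun a => dg G X a) 0 (X.card + 1) P.x0
    (fun a _ => hrange a) (by omega) hpK
  obtain ⟨s', hs'⟩ := hAE N I (fun a => dg G X a) 0 (X.card + 1) P.x0
    (fun a _ => hrange a) (by omega) hpI
  obtain ⟨K2, hK2def⟩ : ∃ K2, K2 = K.filter (fun a => dg G X a = s) := ⟨_, rfl⟩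
  obtain ⟨I2, hI2def⟩ : ∃ I2, I2 = I.filter (fun a => dg G X a = s') := ⟨_, rfl⟩
  have hK2K : K2 ⊆ K := by
    rw [hK2def]
    exact filter_subset _ _
  have hI2I : I2 ⊆ I := by
    rw [hI2def]
    exact filter_subset _ _
  have hK2s : ∀ a ∈ K2, dg G X a = s := by
    intro a ha
    rw [hK2def] at ha
    exact (mem_filter.1 ha).2
  have hI2s : ∀ a ∈ I2, dg G X a = s' := by
    intro a ha
    rw [hI2def] at ha
    exact (mem_filter.1 ha).2
  have hK2c : P.N1 ≤ K2.card + P.E := by
    have h := card_filter_add_card_filter_not (s := K) (fun a => dg G X a = s)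
    rw [← hK2def] at h
    have h' : (K.filter (fun a => ¬ dg G X a = s)).card ≤ (X.card + 1) * P.x0 := hs
    omega
  have hI2c : P.N1 ≤ I2.card + P.E := by
    have h := card_filter_add_card_filter_not (s := I) (fun a => dg G X a = s')
    rw [← hI2def] at h
    have h' : (I.filter (fun a => ¬ dg G X a = s')).card ≤ (X.card + 1) * P.x0 := hs'
    omega
  -- (b)
  obtain ⟨f, hf⟩ : ∃ f, f = X.card / 2 := ⟨_, rfl⟩
  have hf1 : 1 ≤ f := by omega
  have hfX : 2 * f ≤ X.card := by omega
  have hfE : (f + 1) * P.x0 ≤ P.E := by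
    rw [hE]
    exact Nat.mul_le_mul_right _ (by omega)
  have hF : ∀ F ⊆ I2, F.card = f → ∃ z : ℤ, (K2.filter (fun a => dg G F a ≠ z)).card ≤ P.E := by
    intro F hFI hFc
    have hFI' : F ⊆ I := hFI.trans hI2I
    have hex : ∃ z : ℤ, (K2.filter (fun a => dg G F a ≠ z)).card ≤ (f + 1) * P.x0 := by
      refine hAE N K2 (fun a => dg G F a) 0 (f + 1) P.x0 ?_ ?_ ?_
      · intro a _
        have h1 := dg_nonneg G F a
        have h2 := dg_le G F a
        rw [hFc] at h2
        push_cast
        constructor <;> omega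
      · omega
      · rintro z z' hz ⟨h1, h2⟩
        have hd : Disjoint (C \ X) F :=
          (hB.dIC.symm.mono_left sdiff_subset).mono_right hFI'
        have hfw : ∀ w : ℤ, K2.filter (fun a => dg G ((C \ X) ∪ F) a = wK - s + w) =
            K2.filter (fun a => dg G F a = w) := by
          intro w
          refine filter_congr ?_
          intro a ha
          rw [dg_union G hd, dg_sdiff G hXC, hB.wtK a (hK2K ha), hK2s a ha]
          constructor
          · intro h
            omega
          · intro h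
            omega
        have hdis : Disjoint ((C \ X) ∪ F) K2 := by
          rw [disjoint_union_left]
          exact ⟨(hB.dKC.symm.mono_left sdiff_subset).mono_right hK2K,
            (hB.dKI.symm.mono_left hFI').mono_right hK2K⟩
        obtain ⟨b, g, hg, hprog⟩ := hAPR N G ((C \ X) ∪ F) K2 (X.card - f) P.x0 1
          (wK - s + z) (wK - s + z') hdis
          (fun a ha b hb hab => hB.clq a (hK2K ha) b (hK2K hb) hab) (by omega) (by omega)
          (by omega) (by rw [hfw]; exact h1) (by rw [hfw]; exact h2)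
        refine hfirst ⟨b, g, hg, ?_⟩
        intro y hy
        obtain ⟨Q, hQK, hQc, hQe⟩ := hprog y hy
        refine ⟨Q, hQK.trans hK2K, F, hFI', ?_, ?_⟩
        · rw [hQc, hFc]
          omega
        · rw [← hQe, union_assoc, union_comm F Q]
    obtain ⟨z, hz⟩ := hex
    exact ⟨z, hz.trans hfE⟩
  -- (c)
  have hfu : (2 * f + 1) * P.E ≤ P.u := by
    rw [hu]
    exact Nat.mul_le_mul_right _ (by omega)
  obtain ⟨K2', hK2'K, hK2'c, t, ht, htc⟩ := hHOM N G K2 I2 f P.E P.u hf1 (by omega) hfu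
    (by omega) hF
  have hh : ∃ h : ℤ, (h = 0 ∨ h = 1) ∧ P.x0 ≤ (I2.filter (fun c => t c = h)).card := by
    have h := card_filter_add_card_filter_not (s := I2) (fun c => t c = 0)
    by_cases h0 : P.x0 ≤ (I2.filter (fun c => t c = 0)).card
    · exact ⟨0, Or.inl rfl, h0⟩
    · refine ⟨1, Or.inr rfl, ?_⟩
      have h1 : I2.filter (fun c => ¬ t c = 0) = I2.filter (fun c => t c = 1) := by
        refine filter_congr ?_
        intro c _
        rcases ht c with h2 | h2 <;> rw [h2] <;> norm_num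
      rw [h1] at h
      omega
  obtain ⟨h, hh01, hhc⟩ := hh
  obtain ⟨I3, hI3, hI3c⟩ := exists_subset_card_eq hhc
  have hI3I2 : I3 ⊆ I2 := hI3.trans (filter_subset _ _)
  have hbad : (I3.biUnion (fun c => K2'.filter (fun a => aa G a c ≠ t c))).card ≤
      P.x0 * (2 * P.E) := by
    rw [← hI3c]
    exact card_biUnion_le_card_mul _ _ _ fun c hc => htc c (hI3I2 hc)
  refine ⟨K2' \ I3.biUnion (fun c => K2'.filter (fun a => aa G a c ≠ t c)), ?_, I3, ?_, ?_, hI3c,
    s, s', h, hh01, ?_, ?_, ?_⟩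
  · exact sdiff_subset.trans (hK2'K.trans hK2K)
  · exact hI3I2.trans hI2I
  · have h1 := le_card_sdiff (I3.biUnion (fun c => K2'.filter (fun a => aa G a c ≠ t c))) K2'
    omega
  · intro a ha
    exact hK2s a (hK2'K (mem_sdiff.1 ha).1)
  · intro c hc
    exact hI2s c (hI3I2 hc)
  · intro a ha c hc
    obtain ⟨ha1, ha2⟩ := mem_sdiff.1 ha
    by_contra hne
    apply ha2
    rw [mem_biUnion]
    refine ⟨c, hc, mem_filter.2 ⟨ha1, ?_⟩⟩
    rw [(mem_filter.1 (hI3 hc)).2]
    exact hne

end Pool.Agent.H2.KSU
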